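import Pool.Agent.helper90.ZD.SpecB

set_option autoImplicit false

open Complex MeasureTheory

namespace Pool.Agent.ZD

open Pool.Agent.helper84.DM Pool.Agent.helper78.ED Pool.Agent.DH

open Classical in
/-- The pairs counted by `cnt`. -/
noncomputable def BCN_P (A : Finset ℕ) (z η : ℝ) : Finset (ℕ × ℕ) :=
  (A ×ˢ A).filter fun p => |z - (Real.log p.1 - Real.log p.2)| ≤ η

open Classical in
theorem BCN_cnt (A : Finset ℕ) (z η : ℝ) : cnt A z η = ((BCN_P A z η).card : ℝ) := by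
  unfold cnt BCN_P
  rw [Finset.card_filter, Finset.sum_product]
  push_cast
  rfl

theorem BCN_mem (A : Finset ℕ) (z η : ℝ) (p : ℕ × ℕ) : p ∈ BCN_P A z η ↔
    (p.1 ∈ A ∧ p.2 ∈ A) ∧ |z - (Real.log p.1 - Real.log p.2)| ≤ η := by
  classical
  unfold BCN_P
  rw [Finset.mem_filter, Finset.mem_product]

theorem BCN_cnt_nonneg (A : Finset ℕ) (z η : ℝ) : 0 ≤ cnt A z η := by
  rw [BCN_cnt]; exact Nat.cast_nonneg _

/-- The fibre over `g`. -/
noncomputable def BCN_F (N : ℕ) (z η : ℝ) (g : ℕ) : Finset (ℕ × ℕ) :=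
  (BCN_P (Finset.Ioc N (4 * N)) z η).filter fun p => Nat.gcd p.1 p.2 = g

theorem BCN_memF (N : ℕ) (z η : ℝ) (g : ℕ) (p : ℕ × ℕ) : p ∈ BCN_F N z η g ↔
    (((N < p.1 ∧ p.1 ≤ 4 * N) ∧ (N < p.2 ∧ p.2 ≤ 4 * N)) ∧
      |z - (Real.log p.1 - Real.log p.2)| ≤ η) ∧ Nat.gcd p.1 p.2 = g := by
  unfold BCN_F
  rw [Finset.mem_filter, BCN_mem, Finset.mem_Ioc, Finset.mem_Ioc]

/-- Data of an element of the fibre. -/
theorem BCN_data (N : ℕ) (z η : ℝ) (g : ℕ) (p : ℕ × ℕ) (hp : p ∈ BCN_F N z η g) :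
    ∃ l k : ℕ, p.1 = g * l ∧ p.2 = g * k ∧ Nat.Coprime l k ∧ 1 ≤ g ∧ 1 ≤ l ∧ 1 ≤ k ∧
      N < g * l ∧ g * l ≤ 4 * N ∧ N < g * k ∧ g * k ≤ 4 * N ∧
      |z - (Real.log l - Real.log k)| ≤ η ∧ l = p.1 / g ∧ k = p.2 / g := by
  rw [BCN_memF] at hp
  obtain ⟨⟨⟨⟨h1, h2⟩, h3, h4⟩, h5⟩, h6⟩ := hp
  have hg : 1 ≤ g := by
    rw [← h6]
    exact Nat.gcd_pos_of_pos_left _ (by omega)
  obtain ⟨l, hl⟩ : g ∣ p.1 := h6 ▸ Nat.gcd_dvd_left _ _
  obtain ⟨k, hk⟩ : g ∣ p.2 := h6 ▸ Nat.gcd_dvd_right _ _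
  have hl1 : 1 ≤ l := by
    rcases Nat.eq_zero_or_pos l with h | h
    · rw [h, Nat.mul_zero] at hl; omega
    · exact h
  have hk1 : 1 ≤ k := by
    rcases Nat.eq_zero_or_pos k with h | h
    · rw [h, Nat.mul_zero] at hk; omega
    · exact h
  have hco : Nat.Coprime l k := by
    have h7 := h6
    rw [hl, hk, Nat.gcd_mul_left] at h7
    have h8 : g * Nat.gcd l k = g * 1 := by rw [h7, Nat.mul_one]
    exact Nat.eq_of_mul_eq_mul_left (by omega) h8
  have hgr : (g : ℝ) ≠ 0 := by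
    have : (0 : ℝ) < g := by exact_mod_cast hg
    exact this.ne'
  have hlr : (l : ℝ) ≠ 0 := by
    have : (0 : ℝ) < l := by exact_mod_cast hl1
    exact this.ne'
  have hkr : (k : ℝ) ≠ 0 := by
    have : (0 : ℝ) < k := by exact_mod_cast hk1
    exact this.ne'
  have hlog : Real.log p.1 - Real.log p.2 = Real.log l - Real.log k := by
    rw [hl, hk]
    push_cast
    rw [Real.log_mul hgr hlr, Real.log_mul hgr hkr]
    ring
  rw [hlog] at h5
  refine ⟨l, k, hl, hk, hco, hg, hl1, hk1, by omega, by omega, by omega, by omega, h5, ?_, ?_⟩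
  · rw [hl, Nat.mul_div_cancel_left _ (by omega)]
  · rw [hk, Nat.mul_div_cancel_left _ (by omega)]

/-- Injectivity of the quotient map on a fibre. -/
theorem BCN_inj (N : ℕ) (z η : ℝ) (g : ℕ) (p q : ℕ × ℕ) (hp : p ∈ BCN_F N z η g)
    (hq : q ∈ BCN_F N z η g) (h1 : p.1 / g = q.1 / g) (h2 : p.2 / g = q.2 / g) : p = q := by
  obtain ⟨l, k, a1, a2, -, -, -, -, -, -, -, -, -, a3, a4⟩ := BCN_data N z η g p hp
  obtain ⟨l', k', b1, b2, -, -, -, -, -, -, -, -, -, b3, b4⟩ := BCN_data N z η g q hq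
  have e1 : l = l' := by rw [a3, b3, h1]
  have e2 : k = k' := by rw [a4, b4, h2]
  apply Prod.ext
  · rw [a1, b1, e1]
  · rw [a2, b2, e2]

/-- Case (i). -/
theorem BCN_A (hB : BCF_stmt) (N : ℕ) (z η : ℝ) (hη : 0 < η) (hη1 : η ≤ 1) (g : ℕ) (hg : 1 ≤ g)
    (hgN : g ≤ N) : ((BCN_F N z η g).card : ℝ) ≤ 2 + 1600 * η * (N : ℝ) ^ 2 / (g : ℝ) ^ 2 := by
  classical
  set Q : ℕ := 4 * N / g with hQ
  have hQ1 : 1 ≤ Q := by
    rw [hQ, Nat.le_div_iff_mul_le (by omega)]
    omega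
  have hcard : ((BCN_F N z η g).image fun p => (p.1 / g, p.2 / g)).card = (BCN_F N z η g).card := by
    apply Finset.card_image_of_injOn
    intro p hp q hq hpq
    simp only [Prod.mk.injEq] at hpq
    exact BCN_inj N z η g p q hp hq hpq.1 hpq.2
  have h := hB Q z η hQ1 hη hη1 ((BCN_F N z η g).image fun p => (p.1 / g, p.2 / g)) (by
    intro p hp
    rw [Finset.mem_image] at hp
    obtain ⟨q, hq, rfl⟩ := hp
    obtain ⟨l, k, a1, a2, a3, a4, a5, a6, a7, a8, a9, a10, a11, a12, a13⟩ :=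
      BCN_data N z η g q hq
    simp only
    rw [← a12, ← a13]
    have hlQ : l ≤ Q := by
      rw [hQ, Nat.le_div_iff_mul_le (by omega), Nat.mul_comm]
      exact a8
    have hkQ : k ≤ Q := by
      rw [hQ, Nat.le_div_iff_mul_le (by omega), Nat.mul_comm]
      exact a10
    have hlk : l ≤ 4 * k := by
      have h1 : g * l ≤ g * (4 * k) := by
        have : g * (4 * k) = 4 * (g * k) := by ring
        omega
      exact Nat.le_of_mul_le_mul_left h1 (by omega)
    exact ⟨a5, hlQ, a6, hkQ, hlk, a3, a11⟩)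
  rw [hcard] at h
  have hgr : (0 : ℝ) < g := by exact_mod_cast hg
  have hQr : (Q : ℝ) ≤ 4 * N / g := by
    have := @Nat.cast_div_le ℝ _ _ _ (4 * N) g
    rw [hQ]
    push_cast at this ⊢
    exact this
  have hQ0 : (0 : ℝ) ≤ Q := Nat.cast_nonneg _
  have h2 : (Q : ℝ) ^ 2 ≤ (4 * N / g) ^ 2 := pow_le_pow_left₀ hQ0 hQr 2
  have h3 : (4 * (N : ℝ) / g) ^ 2 = 16 * (N : ℝ) ^ 2 / (g : ℝ) ^ 2 := by
    rw [div_pow]; ring
  rw [h3] at h2
  calc ((BCN_F N z η g).card : ℝ) ≤ 2 + 100 * η * (Q : ℝ) ^ 2 := h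
    _ ≤ 2 + 100 * η * (16 * (N : ℝ) ^ 2 / (g : ℝ) ^ 2) := by
        have := mul_le_mul_of_nonneg_left h2 (show 0 ≤ 100 * η by positivity)
        linarith
    _ = 2 + 1600 * η * (N : ℝ) ^ 2 / (g : ℝ) ^ 2 := by ring

/-- Case (ii). -/
theorem BCN_B (N : ℕ) (z η : ℝ) (g j : ℕ) (h1 : 2 ^ j * g ≤ N)
    (h2 : N < 2 ^ (j + 1) * g) : ((BCN_F N z η g).card : ℝ) ≤ cnt (IL (2 ^ j)) z η := by
  classical
  rw [BCN_cnt]
  norm_cast
  apply Finset.card_le_card_of_injOn (fun p => (p.1 / g, p.2 / g))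
  · intro p hp
    obtain ⟨l, k, a1, a2, a3, a4, a5, a6, a7, a8, a9, a10, a11, a12, a13⟩ :=
      BCN_data N z η g p hp
    simp only
    rw [← a12, ← a13]
    rw [Finset.mem_coe, BCN_mem]
    unfold IL
    simp only [Finset.mem_Ioc]
    have e1 : 2 ^ j < l := by
      have : g * 2 ^ j < g * l := by
        rw [Nat.mul_comm g (2 ^ j)]; omega
      exact Nat.lt_of_mul_lt_mul_left this
    have e2 : 2 ^ j < k := by
      have : g * 2 ^ j < g * k := by
        rw [Nat.mul_comm g (2 ^ j)]; omega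
      exact Nat.lt_of_mul_lt_mul_left this
    have e3 : 4 * N < g * (8 * 2 ^ j) := by
      have : g * (8 * 2 ^ j) = 4 * (2 ^ (j + 1) * g) := by rw [pow_succ]; ring
      omega
    have e4 : l ≤ 8 * 2 ^ j := (Nat.lt_of_mul_lt_mul_left (show g * l < g * (8 * 2 ^ j) by omega)).le
    have e5 : k ≤ 8 * 2 ^ j := (Nat.lt_of_mul_lt_mul_left (show g * k < g * (8 * 2 ^ j) by omega)).le
    exact ⟨⟨⟨e1, e4⟩, e2, e5⟩, a11⟩
  · intro p hp q hq hpq
    simp only [Prod.mk.injEq] at hpq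
    exact BCN_inj N z η g p q hp hq hpq.1 hpq.2

/-- Case (iii). -/
theorem BCN_C (N : ℕ) (z η : ℝ) (g : ℕ) (h1 : N < g) :
    ((BCN_F N z η g).card : ℝ) ≤ cnt (IL (2 ^ 0)) z η := by
  classical
  rw [BCN_cnt]
  norm_cast
  apply Finset.card_le_card_of_injOn (fun p => (2 * (p.1 / g), 2 * (p.2 / g)))
  · intro p hp
    obtain ⟨l, k, a1, a2, a3, a4, a5, a6, a7, a8, a9, a10, a11, a12, a13⟩ :=
      BCN_data N z η g p hp
    simp only
    rw [← a12, ← a13]
    rw [Finset.mem_coe, BCN_mem]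
    unfold IL
    simp only [Finset.mem_Ioc]
    have e4 : l < 4 := Nat.lt_of_mul_lt_mul_left (show g * l < g * 4 by omega)
    have e5 : k < 4 := Nat.lt_of_mul_lt_mul_left (show g * k < g * 4 by omega)
    refine ⟨⟨⟨by omega, by omega⟩, by omega, by omega⟩, ?_⟩
    have hlr : (l : ℝ) ≠ 0 := by
      have : (0 : ℝ) < l := by exact_mod_cast a5
      exact this.ne'
    have hkr : (k : ℝ) ≠ 0 := by
      have : (0 : ℝ) < k := by exact_mod_cast a6
      exact this.ne'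
    have hlog : Real.log ((2 * l : ℕ) : ℝ) - Real.log ((2 * k : ℕ) : ℝ) =
        Real.log l - Real.log k := by
      push_cast
      rw [Real.log_mul two_ne_zero hlr, Real.log_mul two_ne_zero hkr]
      ring
    rw [hlog]
    exact a11
  · intro p hp q hq hpq
    simp only [Prod.mk.injEq] at hpq
    exact BCN_inj N z η g p q hp hq (by omega) (by omega)

theorem BCN_sum_sq (n : ℕ) : ∑ g ∈ Finset.Icc 1 n, 1 / (g : ℝ) ^ 2 ≤ 2 := by
  have h : ∀ n : ℕ, 1 ≤ n → ∑ g ∈ Finset.Icc 1 n, 1 / (g : ℝ) ^ 2 ≤ 2 - 1 / (n : ℝ) := by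
    intro n hn
    induction n, hn using Nat.le_induction with
    | base => norm_num
    | succ m hm ih =>
      rw [Finset.sum_Icc_succ_top (by omega)]
      have hm0 : (0 : ℝ) < m := by exact_mod_cast hm
      have h1 : 1 / ((m + 1 : ℕ) : ℝ) ^ 2 ≤ 1 / m - 1 / ((m + 1 : ℕ) : ℝ) := by
        push_cast
        rw [div_sub_div _ _ hm0.ne' (by positivity), div_le_div_iff₀ (by positivity) (by positivity)]
        nlinarith
      linarith
  rcases Nat.eq_zero_or_pos n with h0 | h0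
  · rw [h0]; norm_num
  · have := h n h0
    have h1 : (0 : ℝ) ≤ 1 / (n : ℝ) := by positivity
    linarith

theorem BCN (h : BCF_stmt) : BCN_stmt := by
  classical
  refine ⟨3205, by norm_num, ?_⟩
  intro N M T z η hN hNT hT hTM hη hη1
  have hN0 : (0 : ℝ) < N := by exact_mod_cast hN
  have hT0 : 0 < T := by linarith
  set c : ℕ → ℝ := fun j => cnt (IL (2 ^ j)) z η with hc
  have hc0 : ∀ j, 0 ≤ c j := fun j => BCN_cnt_nonneg _ _ _
  -- decomposition
  have hdec : cnt (Finset.Ioc N (4 * N)) z η =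
      ∑ g ∈ Finset.Icc 1 (4 * N), ((BCN_F N z η g).card : ℝ) := by
    rw [BCN_cnt, ← Nat.cast_sum]
    congr 1
    unfold BCN_F
    apply Finset.card_eq_sum_card_fiberwise
    intro p hp
    rw [Finset.mem_coe, BCN_mem, Finset.mem_Ioc, Finset.mem_Ioc] at hp
    rw [Finset.mem_coe, Finset.mem_Icc]
    refine ⟨Nat.gcd_pos_of_pos_left _ (by omega), ?_⟩
    exact (Nat.gcd_le_left _ (by omega)).trans hp.1.1.2
  -- pointwise
  have hpt : ∀ g ∈ Finset.Icc 1 (4 * N), ((BCN_F N z η g).card : ℝ) ≤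
      ((if (g : ℝ) * T ≤ (N : ℝ) ^ 2 then 2 else 0) +
        1600 * η * (N : ℝ) ^ 2 * (1 / (g : ℝ) ^ 2)) +
      (∑ j ∈ Finset.range (M + 1), (if 2 ^ j * g ≤ N then c j else 0)) + c 0 := by
    intro g hg
    rw [Finset.mem_Icc] at hg
    have hgr : (0 : ℝ) < g := by exact_mod_cast hg.1
    have hs0 : 0 ≤ ∑ j ∈ Finset.range (M + 1), (if 2 ^ j * g ≤ N then c j else 0) := by
      apply Finset.sum_nonneg
      intro j _
      split_ifs
      · exact hc0 j
      · exact le_rfl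
    have hx0 : 0 ≤ 1600 * η * (N : ℝ) ^ 2 * (1 / (g : ℝ) ^ 2) := by positivity
    by_cases h1 : (g : ℝ) * T ≤ (N : ℝ) ^ 2
    · rw [if_pos h1]
      have hgN : g ≤ N := by
        have : (g : ℝ) ≤ N := by
          have h2 : (g : ℝ) * N ≤ (N : ℝ) * N := by nlinarith
          exact le_of_mul_le_mul_right h2 hN0
        exact_mod_cast this
      have h3 := BCN_A h N z η hη hη1 g hg.1 hgN
      have h4 : 1600 * η * (N : ℝ) ^ 2 / (g : ℝ) ^ 2 =
          1600 * η * (N : ℝ) ^ 2 * (1 / (g : ℝ) ^ 2) := by ring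
      rw [h4] at h3
      linarith [hc0 0]
    · rw [if_neg h1]
      rcases Nat.lt_or_ge N g with h2 | h2
      · have h3 := BCN_C N z η g h2
        have h4 : c 0 = cnt (IL (2 ^ 0)) z η := rfl
        linarith
      · set j : ℕ := Nat.log 2 (N / g) with hj
        have hq : N / g ≠ 0 := by
          have : 1 ≤ N / g := by rw [Nat.le_div_iff_mul_le (by omega)]; omega
          omega
        have h3 : 2 ^ j ≤ N / g := Nat.pow_log_le_self 2 hq
        have h4 : N / g < 2 ^ (j + 1) := Nat.lt_pow_succ_log_self (by norm_num) _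
        have h5 : 2 ^ j * g ≤ N := (Nat.le_div_iff_mul_le (by omega)).1 h3
        have h6 : N < 2 ^ (j + 1) * g := (Nat.div_lt_iff_lt_mul (by omega)).1 h4
        have h7 : j < M + 1 := by
          have h8 : ((2 : ℝ) ^ j) < 2 ^ (M + 1) := by
            have h9 : (2 : ℝ) ^ j * g ≤ N := by exact_mod_cast h5
            have h10 : (N : ℝ) ^ 2 < g * T := not_le.1 h1
            have h11 : T ≤ 2 ^ M * N := by rwa [div_le_iff₀ hN0] at hTM
            have h12 : (2 : ℝ) ^ M ≤ 2 ^ (M + 1) := by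
              apply pow_le_pow_right₀ (by norm_num); omega
            have h13 : (N : ℝ) ^ 2 < g * (2 ^ M * N) := lt_of_lt_of_le h10
              (mul_le_mul_of_nonneg_left h11 hgr.le)
            have h14 : (N : ℝ) < g * 2 ^ M := by
              have : (N : ℝ) * N < (g * 2 ^ M) * N := by nlinarith
              exact lt_of_mul_lt_mul_right this hN0.le
            have h15 : (2 : ℝ) ^ j * g < 2 ^ M * g := by nlinarith
            exact lt_of_lt_of_le (lt_of_mul_lt_mul_right h15 hgr.le) h12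
          exact (pow_lt_pow_iff_right₀ (by norm_num : (1 : ℝ) < 2)).1 h8
        have h8 := BCN_B N z η g j h5 h6
        have h9 : c j ≤ ∑ j ∈ Finset.range (M + 1), (if 2 ^ j * g ≤ N then c j else 0) := by
          have h10 := Finset.single_le_sum
            (f := fun j => (if 2 ^ j * g ≤ N then c j else 0)) (s := Finset.range (M + 1))
            (fun i _ => by
              split_ifs
              · exact hc0 i
              · exact le_rfl) (Finset.mem_range.2 h7)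
          rw [if_pos h5] at h10
          exact h10
        have h10 : c j = cnt (IL (2 ^ j)) z η := rfl
        linarith [hc0 0]
  -- the four sums
  have hA : ∑ g ∈ Finset.Icc 1 (4 * N), (if (g : ℝ) * T ≤ (N : ℝ) ^ 2 then (2 : ℝ) else 0) ≤
      2 * ((N : ℝ) ^ 2 / T) := by
    rw [← Finset.sum_filter, Finset.sum_const, nsmul_eq_mul]
    have h1 : ((Finset.Icc 1 (4 * N)).filter fun g : ℕ => (g : ℝ) * T ≤ (N : ℝ) ^ 2).card ≤
        ⌊(N : ℝ) ^ 2 / T⌋₊ := by
      calc _ ≤ (Finset.Icc 1 ⌊(N : ℝ) ^ 2 / T⌋₊).card := by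
            apply Finset.card_le_card
            intro g hg
            rw [Finset.mem_filter, Finset.mem_Icc] at hg
            rw [Finset.mem_Icc]
            refine ⟨hg.1.1, ?_⟩
            rw [Nat.le_floor_iff (by positivity), le_div_iff₀ hT0]
            exact hg.2
        _ = ⌊(N : ℝ) ^ 2 / T⌋₊ := by simp
    have h2 : ((⌊(N : ℝ) ^ 2 / T⌋₊ : ℕ) : ℝ) ≤ (N : ℝ) ^ 2 / T := Nat.floor_le (by positivity)
    have h3 : ((((Finset.Icc 1 (4 * N)).filter fun g : ℕ => (g : ℝ) * T ≤ (N : ℝ) ^ 2).card : ℕ) : ℝ)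
        ≤ (N : ℝ) ^ 2 / T := le_trans (by exact_mod_cast h1) h2
    linarith
  have hB : ∑ g ∈ Finset.Icc 1 (4 * N), 1600 * η * (N : ℝ) ^ 2 * (1 / (g : ℝ) ^ 2) ≤
      3200 * (η * (N : ℝ) ^ 2) := by
    rw [← Finset.mul_sum]
    have := mul_le_mul_of_nonneg_left (BCN_sum_sq (4 * N))
      (show 0 ≤ 1600 * η * (N : ℝ) ^ 2 by positivity)
    linarith
  have hD : ∑ g ∈ Finset.Icc 1 (4 * N), ∑ j ∈ Finset.range (M + 1),
      (if 2 ^ j * g ≤ N then c j else 0) ≤
      ∑ j ∈ Finset.range (M + 1), (N : ℝ) / 2 ^ j * c j := by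
    rw [Finset.sum_comm]
    apply Finset.sum_le_sum
    intro j _
    rw [← Finset.sum_filter, Finset.sum_const, nsmul_eq_mul]
    apply mul_le_mul_of_nonneg_right _ (hc0 j)
    have h1 : ((Finset.Icc 1 (4 * N)).filter fun g : ℕ => 2 ^ j * g ≤ N).card ≤ N / 2 ^ j := by
      calc _ ≤ (Finset.Icc 1 (N / 2 ^ j)).card := by
            apply Finset.card_le_card
            intro g hg
            rw [Finset.mem_filter, Finset.mem_Icc] at hg
            rw [Finset.mem_Icc]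
            refine ⟨hg.1.1, ?_⟩
            rw [Nat.le_div_iff_mul_le (by positivity), Nat.mul_comm]
            exact hg.2
        _ = N / 2 ^ j := by simp
    have h2 : ((N / 2 ^ j : ℕ) : ℝ) ≤ (N : ℝ) / 2 ^ j := by
      have := @Nat.cast_div_le ℝ _ _ _ N (2 ^ j)
      push_cast at this
      exact this
    exact le_trans (by exact_mod_cast h1) h2
  have hE : ∑ g ∈ Finset.Icc 1 (4 * N), c 0 ≤
      4 * ∑ j ∈ Finset.range (M + 1), (N : ℝ) / 2 ^ j * c j := by
    rw [Finset.sum_const, nsmul_eq_mul, Nat.card_Icc]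
    have h1 : (N : ℝ) / 2 ^ 0 * c 0 ≤ ∑ j ∈ Finset.range (M + 1), (N : ℝ) / 2 ^ j * c j :=
      Finset.single_le_sum (f := fun j => (N : ℝ) / 2 ^ j * c j) (s := Finset.range (M + 1))
        (fun i _ => mul_nonneg (by positivity) (hc0 i)) (Finset.mem_range.2 (by omega))
    have h2 : ((4 * N + 1 - 1 : ℕ) : ℝ) = 4 * N := by
      rw [Nat.add_sub_cancel]; push_cast; ring
    rw [h2]
    rw [pow_zero, div_one] at h1
    linarith
  rw [hdec]
  calc ∑ g ∈ Finset.Icc 1 (4 * N), ((BCN_F N z η g).card : ℝ)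
      ≤ ∑ g ∈ Finset.Icc 1 (4 * N), (((if (g : ℝ) * T ≤ (N : ℝ) ^ 2 then 2 else 0) +
        1600 * η * (N : ℝ) ^ 2 * (1 / (g : ℝ) ^ 2)) +
      (∑ j ∈ Finset.range (M + 1), (if 2 ^ j * g ≤ N then c j else 0)) + c 0) :=
        Finset.sum_le_sum hpt
    _ ≤ 3205 * ((N : ℝ) ^ 2 / T + η * (N : ℝ) ^ 2) +
          3205 * ∑ j ∈ Finset.range (M + 1), (N : ℝ) / 2 ^ j * c j := by
        rw [Finset.sum_add_distrib, Finset.sum_add_distrib, Finset.sum_add_distrib]
        have h1 : 0 ≤ (N : ℝ) ^ 2 / T := by positivity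
        have h2 : 0 ≤ η * (N : ℝ) ^ 2 := by positivity
        have h3 : 0 ≤ ∑ j ∈ Finset.range (M + 1), (N : ℝ) / 2 ^ j * c j :=
          Finset.sum_nonneg fun i _ => mul_nonneg (by positivity) (hc0 i)
        linarith

end Pool.Agent.ZD
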