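import Pool.Agent.helper90.ZD.SpecB

set_option autoImplicit false

open Complex MeasureTheory

namespace Pool.Agent.ZD

open Pool.Agent.helper84.DM Pool.Agent.helper78.ED Pool.Agent.DH

theorem BQ1 (h : QID_stmt) : BQ1_stmt := by
  intro W L
  have hinj : ∀ x ∈ W, ∀ y ∈ W, ((x : ℝ) : ℂ) * I = ((y : ℝ) : ℂ) * I → x = y := by
    intro x _ y _ hxy
    have h1 := congrArg Complex.im hxy
    simpa using h1
  have him : ∀ x : ℝ, (((x : ℝ) : ℂ) * I).im = x := by
    intro x
    simp
  rw [h]
  unfold QW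
  rw [Finset.sum_image hinj]
  refine Finset.sum_congr rfl fun t _ => ?_
  rw [Finset.sum_image hinj]
  refine Finset.sum_congr rfl fun t' _ => ?_
  rw [him, him]

end Pool.Agent.ZD
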