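import Pool.Agent.helper84.ZD.SpecA
import Pool.Agent.helper59.DM.DV

set_option autoImplicit false

open Complex MeasureTheory

namespace Pool.Agent.ZD

open Pool.Agent.helper84.DM Pool.Agent.helper78.ED Pool.Agent.DH

theorem R3M_QW_nonneg (W : Finset ℝ) (L : ℕ) : 0 ≤ QW W L :=
  Finset.sum_nonneg fun _ _ => Finset.sum_nonneg fun _ _ => sq_nonneg _

theorem R3M_norm_exp (x : ℝ) : ‖Complex.exp (-((x : ℂ) * I))‖ = 1 := by
  have h : -((x : ℂ) * I) = ((-x : ℝ) : ℂ) * I := by push_cast; ring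
  rw [h]
  exact Complex.norm_exp_ofReal_mul_I (-x)

/-- One term. -/
theorem R3M_term (a b : ℂ) (x c : ℝ)
    (h : ‖a - Complex.exp (-((x : ℂ) * I)) * b‖ ≤ c) : ‖a‖ ^ 2 ≤ 2 * ‖b‖ ^ 2 + 2 * c ^ 2 := by
  have h1 : ‖a‖ ≤ ‖b‖ + c := by
    calc ‖a‖ = ‖Complex.exp (-((x : ℂ) * I)) * b + (a - Complex.exp (-((x : ℂ) * I)) * b)‖ := by
          congr 1; ring
      _ ≤ ‖Complex.exp (-((x : ℂ) * I)) * b‖ + ‖a - Complex.exp (-((x : ℂ) * I)) * b‖ :=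
          norm_add_le _ _
      _ ≤ ‖b‖ + c := by
          rw [norm_mul, R3M_norm_exp, one_mul]
          linarith
  have h2 : 0 ≤ ‖a‖ := norm_nonneg _
  have h3 : 0 ≤ ‖b‖ := norm_nonneg _
  nlinarith [sq_nonneg (‖b‖ - c)]

theorem R3M (h1 : RFS_stmt) (h2 : PR2_stmt) (h3 : QWF_stmt) (h4 : CRD_stmt) : R3_stmt := by
  have _ := h4
  intro ε δ hε hδ hδ1
  obtain ⟨C₁, hC₁, hR⟩ := h1
  obtain ⟨C₂, T₂, hC₂, hP⟩ := h2 1 δ one_pos hδ hδ1
  obtain ⟨C₃, hC₃, hD⟩ := divisor_bound (ε / 12) (by positivity)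
  set C₄ : ℝ := max C₃ 1 with hC₄
  have hC₄1 : 1 ≤ C₄ := le_max_right _ _
  have hC₄3 : C₃ ≤ C₄ := le_max_left _ _
  set K : ℝ := 2 * (C₁ * (1 + 8 / ε) * (C₄ * (8 : ℝ) ^ (ε / 12))) + 2 * C₂ ^ 2 with hK
  refine ⟨K, max T₂ 1, by positivity, ?_⟩
  intro T hT W hW X hX1 hX2 L hL1 hL2
  have hT2 : T₂ ≤ T := le_trans (le_max_left _ _) hT
  have hT1 : 1 ≤ T := le_trans (le_max_right _ _) hT
  have hT0 : 0 < T := by linarith
  have hX0 : 1 ≤ X := le_trans (Real.one_le_rpow hT1 (by norm_num)) hX1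
  have hXp : 0 < X := by linarith
  -- M
  set M : ℕ := ⌊T ^ (1 + δ) / X⌋₊ with hM
  have hq1 : 1 ≤ T ^ (1 + δ) / X := by
    rw [le_div_iff₀ hXp]; linarith
  have hM1 : 1 ≤ M := Nat.one_le_floor_iff _ |>.2 hq1
  have hMq : (M : ℝ) ≤ T ^ (1 + δ) / X := Nat.floor_le (by linarith)
  have hML : M ≤ L := by
    have : (M : ℝ) ≤ (L : ℝ) := hMq.trans hL1
    exact_mod_cast this
  have hMlt : T ^ (1 + δ) / X ≤ (M : ℝ) + 1 := (Nat.lt_floor_add_one _).le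
  have hL0 : 1 ≤ L := le_trans hM1 hML
  -- distances
  have hTδ : 1 ≤ T ^ δ := Real.one_le_rpow hT1 hδ.le
  have hdist : ∀ t ∈ W, ∀ t' ∈ W, t ≠ t' → 1 ≤ |t - t'| := fun t ht t' ht' hne =>
    hTδ.trans (hW.2 t ht t' ht' hne)
  have hle : ∀ t ∈ W, ∀ t' ∈ W, |t - t'| ≤ T := by
    intro t ht t' ht'
    have a := hW.1 t ht
    have b := hW.1 t' ht'
    rw [abs_le]
    constructor <;> linarith [a.1, a.2, b.1, b.2]
  -- D
  set D : ℝ := C₄ * ((8 : ℝ) ^ (ε / 12) * T ^ (ε / 2)) with hDd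
  have h8 : 1 ≤ (8 : ℝ) ^ (ε / 12) := Real.one_le_rpow (by norm_num) (by positivity)
  have hTe2 : 1 ≤ T ^ (ε / 2) := Real.one_le_rpow hT1 (by positivity)
  have hTe4 : 1 ≤ T ^ (ε / 4) := Real.one_le_rpow hT1 (by positivity)
  have hD1 : 1 ≤ D := by
    have := mul_le_mul h8 hTe2 zero_le_one (by positivity)
    have := mul_le_mul hC₄1 this (by norm_num) (by positivity)
    simpa [hDd] using this
  have hDk : ∀ k ∈ IL L, (d k : ℝ) ≤ D := by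
    intro k hk
    unfold IL at hk
    rw [Finset.mem_Ioc] at hk
    have hk1 : 1 ≤ k := by omega
    have hk8 : (k : ℝ) ≤ 8 * T ^ (6 : ℕ) := by
      have : (k : ℝ) ≤ 8 * (L : ℝ) := by exact_mod_cast hk.2
      linarith
    have hk0 : (0 : ℝ) ≤ (k : ℝ) := Nat.cast_nonneg k
    calc d k ≤ C₃ * (k : ℝ) ^ (ε / 12) := hD k hk1
      _ ≤ C₄ * (8 * T ^ (6 : ℕ)) ^ (ε / 12) := by
          apply mul_le_mul hC₄3 _ (by positivity) (by positivity)
          exact Real.rpow_le_rpow hk0 hk8 (by positivity)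
      _ = D := by
          rw [hDd, Real.mul_rpow (by norm_num) (by positivity)]
          congr 2
          rw [← Real.rpow_natCast T 6, ← Real.rpow_mul hT0.le]
          congr 1
          push_cast
          ring
  have hRF := hR W X D M L hdist hX0 hL0 hM1 hML hD1 hDk
  have hQ0 := R3M_QW_nonneg W L
  -- log M
  have hlog : 1 + Real.log M ≤ (1 + 8 / ε) * T ^ (ε / 4) := by
    have hMT : (M : ℝ) ≤ T ^ (2 : ℝ) := by
      calc (M : ℝ) ≤ T ^ (1 + δ) / X := hMq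
        _ ≤ T ^ (1 + δ) := div_le_self (by positivity) hX0
        _ ≤ T ^ (2 : ℝ) := Real.rpow_le_rpow_of_exponent_le hT1 (by linarith)
    have hMpos : (0 : ℝ) < M := by exact_mod_cast hM1
    have h5 : Real.log M ≤ 2 * Real.log T := by
      have := Real.log_le_log hMpos hMT
      rwa [Real.log_rpow hT0] at this
    have h6 : Real.log T ≤ T ^ (ε / 4) / (ε / 4) := Real.log_le_rpow_div hT0.le (by positivity)
    have h7 : T ^ (ε / 4) / (ε / 4) = 4 / ε * T ^ (ε / 4) := by field_simp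
    rw [h7] at h6
    have h8 : (1 + 8 / ε) * T ^ (ε / 4) = T ^ (ε / 4) + 2 * (4 / ε * T ^ (ε / 4)) := by ring
    rw [h8]
    linarith
  -- pointwise
  have hpt : ∀ t ∈ W, ∀ t' ∈ W, (if t = t' then 0 else ‖BX X (t - t')‖ ^ 2) ≤
      2 * ‖Bs X M (t - t')‖ ^ 2 + 2 * C₂ ^ 2 := by
    intro t ht t' ht'
    by_cases hne : t = t'
    · rw [if_pos hne]; positivity
    · rw [if_neg hne]
      have h5 := hP T hT2 X hX1 hX2 (t - t') (hW.2 t ht t' ht' hne) (hle t ht t' ht') M hMlt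
      have h6 : C₂ * T ^ (-1 : ℝ) ≤ C₂ := by
        have : T ^ (-1 : ℝ) ≤ 1 := Real.rpow_le_one_of_one_le_of_nonpos hT1 (by norm_num)
        nlinarith
      exact R3M_term _ _ _ _ (h5.trans h6)
  have hsum : ∑ t ∈ W, ∑ t' ∈ W, (if t = t' then 0 else ‖BX X (t - t')‖ ^ 2) ≤
      2 * ∑ t ∈ W, ∑ t' ∈ W, ‖Bs X M (t - t')‖ ^ 2 + 2 * C₂ ^ 2 * (W.card : ℝ) ^ 2 := by
    calc ∑ t ∈ W, ∑ t' ∈ W, (if t = t' then 0 else ‖BX X (t - t')‖ ^ 2)
        ≤ ∑ t ∈ W, ∑ t' ∈ W, (2 * ‖Bs X M (t - t')‖ ^ 2 + 2 * C₂ ^ 2) :=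
          Finset.sum_le_sum fun t ht => Finset.sum_le_sum fun t' ht' => hpt t ht t' ht'
      _ = 2 * ∑ t ∈ W, ∑ t' ∈ W, ‖Bs X M (t - t')‖ ^ 2 + 2 * C₂ ^ 2 * (W.card : ℝ) ^ 2 := by
          simp only [Finset.sum_add_distrib, Finset.sum_const, nsmul_eq_mul, Finset.mul_sum]
          ring
  have hLr : (0 : ℝ) ≤ (L : ℝ) := Nat.cast_nonneg L
  have hQW2 := (h3 W L).2
  have hTe : T ^ (ε / 4) * T ^ (ε / 2) ≤ T ^ ε := by
    rw [← Real.rpow_add hT0]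
    exact Real.rpow_le_rpow_of_exponent_le hT1 (by linarith)
  have hTe1 : 1 ≤ T ^ ε := Real.one_le_rpow hT1 hε.le
  have hlog0 : 0 ≤ 1 + Real.log M := by
    have : 0 ≤ Real.log M := Real.log_nonneg (by exact_mod_cast hM1)
    linarith
  calc (L : ℝ) * ∑ t ∈ W, ∑ t' ∈ W, (if t = t' then 0 else ‖BX X (t - t')‖ ^ 2)
      ≤ (L : ℝ) * (2 * ∑ t ∈ W, ∑ t' ∈ W, ‖Bs X M (t - t')‖ ^ 2 +
          2 * C₂ ^ 2 * (W.card : ℝ) ^ 2) := mul_le_mul_of_nonneg_left hsum hLr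
    _ = 2 * ((L : ℝ) * ∑ t ∈ W, ∑ t' ∈ W, ‖Bs X M (t - t')‖ ^ 2) +
          2 * C₂ ^ 2 * ((L : ℝ) * (W.card : ℝ) ^ 2) := by ring
    _ ≤ 2 * (C₁ * (1 + Real.log M) * X * D * QW W L) + 2 * C₂ ^ 2 * QW W L := by
        have := mul_le_mul_of_nonneg_left hQW2 (show 0 ≤ 2 * C₂ ^ 2 by positivity)
        linarith
    _ ≤ 2 * (C₁ * ((1 + 8 / ε) * T ^ (ε / 4)) * X * D * QW W L) + 2 * C₂ ^ 2 * QW W L := by
        have h5 : C₁ * (1 + Real.log M) * X * D * QW W L ≤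
            C₁ * ((1 + 8 / ε) * T ^ (ε / 4)) * X * D * QW W L := by
          have hD0 : 0 ≤ D := by linarith
          apply mul_le_mul_of_nonneg_right _ hQ0
          apply mul_le_mul_of_nonneg_right _ hD0
          apply mul_le_mul_of_nonneg_right _ hXp.le
          exact mul_le_mul_of_nonneg_left hlog hC₁.le
        linarith
    _ = 2 * (C₁ * (1 + 8 / ε) * (C₄ * (8 : ℝ) ^ (ε / 12))) *
          (T ^ (ε / 4) * T ^ (ε / 2)) * X * QW W L + 2 * C₂ ^ 2 * QW W L := by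
        rw [hDd]; ring
    _ ≤ 2 * (C₁ * (1 + 8 / ε) * (C₄ * (8 : ℝ) ^ (ε / 12))) * T ^ ε * X * QW W L +
          2 * C₂ ^ 2 * (T ^ ε * X) * QW W L := by
        have h5 : 2 * (C₁ * (1 + 8 / ε) * (C₄ * (8 : ℝ) ^ (ε / 12))) *
            (T ^ (ε / 4) * T ^ (ε / 2)) * X * QW W L ≤
            2 * (C₁ * (1 + 8 / ε) * (C₄ * (8 : ℝ) ^ (ε / 12))) * T ^ ε * X * QW W L := by
          apply mul_le_mul_of_nonneg_right _ hQ0
          apply mul_le_mul_of_nonneg_right _ hXp.le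
          exact mul_le_mul_of_nonneg_left hTe (by positivity)
        have h6 : 1 ≤ T ^ ε * X := by
          have := mul_le_mul hTe1 hX0 zero_le_one (by positivity)
          simpa using this
        have h7 : 2 * C₂ ^ 2 * QW W L ≤ 2 * C₂ ^ 2 * (T ^ ε * X) * QW W L := by
          apply mul_le_mul_of_nonneg_right _ hQ0
          have := mul_le_mul_of_nonneg_left h6 (show 0 ≤ 2 * C₂ ^ 2 by positivity)
          linarith
        linarith
    _ = K * T ^ ε * X * QW W L := by rw [hK]; ring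

end Pool.Agent.ZD
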